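import Pool.Agent.H15.EM.Rep

/-!
# Rationally equivalent generically finite maps to a surface with `p_g = 0`

No hypothesis is assumed. Let `X` be a complex variety of dimension `d`, for example a surface with
`p_g = 0`, and `K` its function field. `Degenerate K F d` means that, with rational coefficients, the
diagonal of `X × X` is rationally equivalent to a cycle supported on `D × X ∪ X × D'` with proper closed
subsets `D`, `D'`; for a surface this is the case if and only if `B(X)` is finite-dimensional
(Bloch and Srinivas, Roitman).

Let `S` be a variety of dimension `d`, with the function field `L`. `Rat L K F d` is rational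
equivalence of the cycles of dimension `d` on `S × X` which dominate `S` and `X`, modulo the other ones:
the space generated by the divisors of rational functions on the varieties `W` of dimension `d + 1` with
maps to `S` and `X`. So a relation `∑ c i • graph (x i) ∈ Rat L K F d` (`Relation`) between generically finite
dominant rational maps `x i : S → X`, given by the embeddings `x i : K → L`, means that the zero-cycles
`∑ c i • [x i (s)]`, for the general point `s` of `S`, are rationally equivalent to zero-cycles on a
fixed divisor `D` of `X` (with rational coefficients). `F` is an algebraically closed field of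
transcendence degree `d` over `ℂ`, for example an algebraic closure of `K` (up to isomorphism there is
only this one).

**(1)** Let `x 0, …, x n : S → X` be generically finite, such that `(x 0, …, x (n-1))` and
`(x 1, …, x n)` factor through the same tuple of maps `s 0, …, s (n-1) : S₀ → X`, as
`x j = s j ∘ u`, `x (j+1) = s j ∘ v` with `u, v : S → S₀`. Let `∑ c i • [x i]` be zero, modulo
zero-cycles on `D`, and `c n ≠ 0`. If no two roots `λ`, `μ`, equal or not, of the polynomial
`∑ c i t^i` satisfy `λ μ = deg(v) / deg(u)`, then `X` is degenerate.

This is a kind of Poincaré duality for the zero-cycles of `X`. If `p_g > 0` it follows from the duality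
on the transcendental part of the cohomology, but this part is zero if `p_g = 0`.

*Two maps.* Let `n = 1` (here `S₀ = X`, `s 0` is the identity, and `u = x 0` and `v = x 1` are
arbitrary): if the zero-cycles `m [x(s)]` and `m' [y(s)]` are rationally equivalent, modulo zero-cycles
on `D`, for the general point `s` of `S`, and `deg(x) m² ≠ deg(y) m'²`, for example if `m = m' = 1` and
the degrees of `x` and `y` are different, then `X` is degenerate. So if `X` is a surface such that `B(X)`
is not finite-dimensional, and `x`, `y` are generic points of `X` which are rationally equivalent and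
generate finite extensions `ℂ(x, y)` of `ℂ(x)` and of `ℂ(y)`, then these extensions have the same
degree.

*Self-maps.* Let `x j` be the `j`-th iterate of a rational self-map `v` of `X`, `S = S₀ = X`, and `u`
the identity.

*Automorphisms of the algebraic closure.* Let `x j = h^j x`, where `x` is the generic point of `X`, `h`
is an automorphism of the algebraic closure of `K` over `ℂ`, and `S` is the variety with the function
field generated by `x, h x, …, h^n x`.

**(2)** Let a group `G` act on `X` by birational maps. Suppose that for every irreducible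
representation `V` of `G` over `ℚ` there are generically finite maps `x, y : S → X` and elements `C`,
`C'` of the group ring `ℚ[G]` with `[x] C ≡ [y] C'`, modulo zero-cycles on `D`, such that the element
`deg(x) C^* C - deg(y) C'^* C'` of `ℚ[G]` does not act as zero on `V`. Then `X` is degenerate.
(`C^*` is obtained from `C` by `g ↦ g⁻¹`. For `G = 1` this is the case of two maps again. If `C` is the
sum of the elements of a subgroup `H`, `C' = 0`, `S = X` and `x` is the identity, then the relation
means that `X / H` is degenerate and the condition on `V` is that there is a vector `≠ 0` fixed by `H`;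
this is the classical case.)

The proof: a relation between maps `S → X` gives, by push-forward to `X` under each of them,
relations between the correspondences `T(x, y)`, the images of `S` in `X × X`. Rational equivalence
modulo the degenerate correspondences is stable under transposition, `T(x, y)^t = T(y, x)`, and
`T(x, x) = deg(x) Δ`. So there are twice as many relations as one would expect.
-/

set_option autoImplicit false

namespace Pool.Agent.Results.MP_7ebcb6_ag.EquivalentMaps

open Pool.Agent.H15.EM

/-- `x : S → X` is a generically finite dominant rational map of varieties of dimension `d` -/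
def GenFin {K L : Type} [Field K] [Field L] [Algebra ℂ K] [Algebra ℂ L] (d : ℕ)
    (x : K →ₐ[ℂ] L) : Prop :=
  Algebra.trdeg ℂ L = (d : ℕ) ∧ x.toRingHom.Finite

/-- The zero-cycle `∑ c i • [x i (s)]` (the sum extends over `i ≤ n`), for the generic point `s` of `S`,
is rationally equivalent to a zero-cycle on a fixed divisor of `X`. -/
def Relation {K L : Type} [Field K] [Field L] [Algebra ℂ K] [Algebra ℂ L] (F : Type) [Field F]
    [Algebra ℂ F] (d n : ℕ) (x : ℕ → (K →ₐ[ℂ] L)) (c : ℕ → ℚ) : Prop :=
  IsZero d fun lam tau => ∑ i ∈ Finset.range (n + 1), c i * graph F (x i) lam tau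

/-- `z` is a root of `∑ c i t ^ i` -/
def Root (n : ℕ) (c : ℕ → ℚ) (z : ℂ) : Prop :=
  ∑ i ∈ Finset.range (n + 1), (c i : ℂ) * z ^ i = 0

/-- (1) -/
def Chains (K F : Type) [Field K] [Algebra ℂ K] [Field F] [Algebra ℂ F] (d : ℕ) : Prop :=
  ∀ (L L₀ : Type) [Field L] [Algebra ℂ L] [Field L₀] [Algebra ℂ L₀] (n : ℕ)
    (x : ℕ → (K →ₐ[ℂ] L)) (u v : L₀ →ₐ[ℂ] L) (s : ℕ → (K →ₐ[ℂ] L₀)) (c : ℕ → ℚ),
    (∀ j ≤ n, GenFin d (x j)) → (∀ j < n, x j = u.comp (s j)) →
    (∀ j < n, x (j + 1) = v.comp (s j)) → c n ≠ 0 → Relation F d n x c →
    (∀ lam mu : ℂ, Root n c lam → Root n c mu → (deg u : ℂ) * (lam * mu) ≠ deg v) →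
    Degenerate K F d

/-- There are generically finite `x, y : S → X` and `C`, `C'` in the group ring with `[x] C ≡ [y] C'`
such that `deg(x) C^* C - deg(y) C'^* C'` is not zero on the representation `V`. -/
def HasRelation {K : Type} [Field K] [Algebra ℂ K] (F : Type) [Field F] [Algebra ℂ F] (d : ℕ)
    {G : Type} [Group G] (θ : G →* (K ≃ₐ[ℂ] K)) {V : Type} [AddCommGroup V] [Module ℚ V]
    (ρ : G →* (V →ₗ[ℚ] V)) : Prop :=
  ∃ (L : Type) (_ : Field L) (_ : Algebra ℂ L) (x y : K →ₐ[ℂ] L) (C C' : G →₀ ℚ) (v : V),
    GenFin d x ∧ GenFin d y ∧ Same F θ d x y C C' ∧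
      (deg x : ℚ) • gramOn ρ C v ≠ (deg y : ℚ) • gramOn ρ C' v

/-- (2) -/
def Representations (K F : Type) [Field K] [Algebra ℂ K] [Field F] [Algebra ℂ F] (d : ℕ) : Prop :=
  ∀ (G : Type) [Group G] (θ : G →* (K ≃ₐ[ℂ] K)),
    (∀ (V : Type) [AddCommGroup V] [Module ℚ V] (ρ : G →* (V →ₗ[ℚ] V)), Irred ρ →
      HasRelation F d θ ρ) → Degenerate K F d

/-- **Rationally equivalent generically finite maps.** -/
theorem result {d : ℕ} (K F : Type) [Field K] [Algebra ℂ K] [Algebra.EssFiniteType ℂ K] [Field F]
    [Algebra ℂ F] [IsAlgClosed F] (hK : Algebra.trdeg ℂ K = (d : ℕ))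
    (_hF : Algebra.trdeg ℂ F = (d : ℕ)) :
    Chains K F d ∧ Representations K F d := by
  have hrel : ∀ {L : Type} [Field L] [Algebra ℂ L] {n : ℕ} {x : ℕ → (K →ₐ[ℂ] L)} {c : ℕ → ℚ},
      Relation F d n x c → ∑ i ∈ Finset.range (n + 1), c i • graph F (x i) ∈
        Rat L K F d := by
    intro L _ _ n x c h
    have h1 : ∑ i ∈ Finset.range (n + 1), c i • graph F (x i) =
        fun lam tau => ∑ i ∈ Finset.range (n + 1), c i * graph F (x i) lam tau := by
      funext lam tau
      rw [Finset.sum_apply, Finset.sum_apply]
      rfl
    rw [h1]
    exact h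
  refine ⟨?_, ?_⟩
  · intro L L₀ _ _ _ _ n x u v s c hx hu hv hc h hroots
    exact main (hx 0 (Nat.zero_le n)).1 x (fun j hj => (hx j hj).2) u v s hu hv c hc hroots
      (hrel h)
  · intro G _ θ h
    refine reps_of hK θ fun V _ _ ρ hρ => ?_
    obtain ⟨L, _, _, x, y, C, C', v, hx, hy, h1, h2⟩ := h V ρ hρ
    exact ⟨L, _, _, x, y, C, C', v, hx.1, hx.2, hy.2, h1, h2⟩

end Pool.Agent.Results.MP_7ebcb6_ag.EquivalentMaps
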