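import Pool.Agent.H32.DT.Pg

/-!
# Relations between the points of the general fibre of a covering, and reducible fibre products

No hypothesis is assumed. Let `X → Y` be a generically finite dominant rational map of complex surfaces
of degree `d ≥ 2` whose monodromy group is doubly transitive, or whose degree is a prime number. For
example the general linear projection `X → P^2` of a surface in a projective space has the symmetric
group as its monodromy group. Let `x 1, ..., x d` be the points of the general fibre.

**Theorem.** The following are equivalent.

1. The group `B(X)` of zero-cycles of `X` is finite-dimensional.
2. `B(Y)` is finite-dimensional (for example `Y = P^2`), and there are integers `a i`, not all equal,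
   such that `∑ a i • [x i]` is, up to torsion, rationally equivalent to a cycle supported on a curve.
3. There is a generically finite dominant rational map `W → Y` of surfaces such that `B(W)` is
   finite-dimensional and the fibre product `X ×_Y W` is reducible.

In the same way, `p_g(X) = 0` if and only if there is a surface `W → Y` with `p_g(W) = 0` such that
`X ×_Y W` is reducible.

So if `B(X)` is infinite-dimensional then the points `x i` of the general linear section of `X ⊆ P^N`
satisfy no relation besides the obvious one, that `∑ [x i]` is constant; even modulo the Jacobians of
all curves in `X`. If `X` is given by an irreducible polynomial `F(s, t, x)` with a doubly transitive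
Galois group over `ℂ(s, t)`, or of prime degree in `x`, and if `F` becomes reducible over one finite
extension of `ℂ(s, t)` which is a rational function field in two variables (or the function field of
any surface `W` with `p_g(W) = 0` which satisfies Bloch's conjecture), then `p_g(X) = 0` and Bloch's
conjecture is true for `X`. It is not assumed that `W` dominates `X`: this would mean that `F` has a
root in the extension. For example `W` may be the surface in the symmetric product `S^k(X)`, `0 < k < d`,
whose points are the sets of `k` points of the fibres of `X → Y`. If both coverings `X → Y` and
`W → Y` have doubly transitive monodromy or prime degree, and if `X ×_Y W` is reducible, then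
`p_g(X) = 0` if and only if `p_g(W) = 0`, and Bloch's conjecture for `X` is equivalent to Bloch's
conjecture for `W`.

The surfaces are given by their function fields: `K₀` for `Y`, `K` for `X`, `W.W` for `W`. The fibre
product is irreducible if and only if `K ⊗[K₀] W.W` is a field. `NoForms` is `p_g = 0`, and `Degenerate`
says that a multiple of the generic point is rationally equivalent to a cycle supported on a curve,
over the algebraic closure of the function field; by the theorem of Bloch and Srinivas this is the
finite-dimensionality of the group of zero-cycles. `HasRelation` is the relation in (2), stated for a
generic point of `Y`.

Proof. Let `Ω` be an algebraically closed field of transcendence degree two, and `u : K₀ → Ω`. The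
integral functions `a` on the set `F` of the extensions `σ : K → Ω` of `u` such that `∑ a σ • [σ]` is a
torsion cycle modulo cycles on curves are a group `R` which is stable under the group `G` of the
automorphisms of `Ω`, which acts on rational equivalence (`rat_iso`). If `B(Y)` is finite-dimensional
then `R` contains the constant functions. Now the space of the functions on `F` with rational values
modulo the constant functions is an irreducible representation of `G`: this is well known if `G` is
doubly transitive, and it follows from the irreducibility of the cyclotomic polynomial if `F` has a
prime number of elements. So if `R` contains a function which is not constant then it contains a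
multiple of each function. If `X ×_Y W` is reducible then the sum of the points of the fibre of one of
its components over a generic point of `W` gives such a function, because its degree is positive and
smaller than `d`. The same proof applies to the traces of global canonical forms.
-/

set_option autoImplicit false

open Pool.Agent.H32.SJ Pool.Agent.H32.DT
open scoped TensorProduct

namespace Pool.Agent.Results.MP_7ebcb6_ag.RelationsInFibres

/-- **Relations between the points of the general fibre, and reducible fibre products.** -/
theorem result {K₀ K : Type} [Field K₀] [Field K] [Algebra ℂ K₀] [Algebra ℂ K] [Algebra K₀ K]
    [IsScalarTower ℂ K₀ K] [FiniteDimensional K₀ K] [Algebra.EssFiniteType ℂ K₀]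
    (h0 : Algebra.trdeg ℂ K₀ = 2) (hd : 2 ≤ Module.finrank K₀ K)
    (hG : DoublyTransitive K₀ K ∨ (Module.finrank K₀ K).Prime) :
    (Degenerate K ↔ Degenerate K₀ ∧ HasRelation K₀ K) ∧
    (Degenerate K ↔ ∃ W : Cover K₀, Degenerate W.W ∧ ¬ IsField (K ⊗[K₀] W.W)) ∧
    (NoForms K ↔ ∃ W : Cover K₀, NoForms W.W ∧ ¬ IsField (K ⊗[K₀] W.W)) := by
  refine ⟨⟨fun h => ⟨degenerate_down h, relation_of_degenerate h0 hd h⟩,
    fun h => degenerate_of_relation h0 hG h.1 h.2⟩, ⟨fun h => ⟨⟨K⟩, h, self_reducible hd⟩, ?_⟩,
    ⟨fun h => ⟨⟨K⟩, h, self_reducible hd⟩, ?_⟩⟩
  · rintro ⟨W, hW, hred⟩
    exact degenerate_of_cover h0 hG hred hW
  · rintro ⟨W, hW, hred⟩
    exact noForms_of_cover h0 hG hred hW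

end Pool.Agent.Results.MP_7ebcb6_ag.RelationsInFibres
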