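import Pool.Agent.H32.SJ.Main
import Pool.Agent.H32.SJ.Ruled

/-!
# Bloch's conjecture for fibred surfaces depends only on the isogeny factors of the Jacobian of the
# generic fibre

No hypothesis is assumed. Let `X → B` be a surface fibred over a curve `B`, and let `Y i → B i` be
surfaces fibred over curves `B i`, for instance over `B` or over coverings of `B`. Here a surface is
given by its function field over `ℂ`, and a fibration by the function field of the base, which is
algebraically closed in it. A correspondence between `X` and `Y i` is given by a surface with dominant
maps to `X` and `Y i`, which is compatible with the fibrations. It acts on the spaces of canonical
forms which are regular on the generic fibres; these are the spaces of regular differentials on the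
generic fibres, tensored with the canonical forms of the base.

Assume that a multiple `d ≠ 0` of the identity of this space for `X` is a sum of compositions of
correspondences `X → Y i → X`, with integral coefficients (`IsFactor X Y`). The differentials are a
faithful representation of the endomorphisms of the Jacobian. So this means that the Jacobian of the
generic fibre of `X` is isogenous to a direct factor of a product of powers of the Jacobians of the
generic fibres of the `Y i` (of their Weil restrictions, if `Y i` is fibred over a covering of `B`).

**Theorem.**

1. If `p_g(Y i) = 0` for all `i` then `p_g(X) = 0`. If `B(Y i)` is finite-dimensional for all `i`, for
   instance if the `Y i` are birationally ruled, then `B(X)` is finite-dimensional.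
2. If conversely the Jacobian of the generic fibre of each `Y i` is isogenous to a factor of a power
   of the one of `X`, for instance if the Jacobian of the generic fibre of `X` is isogenous to the
   product of those of the `Y i`, then `p_g(X) = 0` if and only if all `p_g(Y i) = 0`, and `B(X)` is
   finite-dimensional if and only if all `B(Y i)` are finite-dimensional. So Bloch's conjecture for
   the surfaces `Y i` implies Bloch's conjecture for `X`.

Here `NoForms` is `p_g = 0`, and `Degenerate` says that a multiple of the generic point is rationally
equivalent to a cycle supported on a curve, over the algebraic closure of the function field; by the
theorem of Bloch and Srinivas this is the finite-dimensionality of the group of zero-cycles.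

For example let the Jacobian of the generic fibre of `X` be isogenous to a product of elliptic curves
over the function field of `B`, or of Weil restrictions of elliptic curves over finite extensions. Let
`p_g(X) = 0`. The elliptic surfaces `Y i` have `p_g(Y i) = 0` by (2), and satisfy Bloch's conjecture
by the theorem of Bloch, Kas and Lieberman (which is not assumed or proved here; if the `Y i` are
rational surfaces then it is part of the theorem). So `B(X)` is finite-dimensional. Let for example the
fibres be curves of genus two with a map of degree `n` to an elliptic curve. If `n > 2` then the
elliptic curves are not quotients by automorphisms of the fibres, and `X` need not have any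
automorphism.

Proof. Let `σ : K → Ω` be a generic point of `X`. The zero-cycle `c = d σ - ∑ a k P k(σ)`, where `P k`
is the composition of the correspondences, is a cycle in one fibre, or in finitely many conjugate
fibres, of `X → B`. All forms which are regular on the generic fibre have trace zero on `c`. So for each
fibre the part of `c` in the fibre is a constant point of the Jacobian of the fibre with respect to
the vertical vector fields, and it follows that `c` is rationally equivalent to a cycle on curves in
`X`: this is the theorem on correspondences which hit few fibres of the library
(`Pool.Agent.N162.BC.main`). The correspondences act on
zero-cycles; in particular the preimage of a cycle which is rationally equivalent to zero is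
rationally equivalent to zero, up to torsion (`lift_gen`). If the generic points of the `Y i` are
torsion modulo cycles on curves then so is `P k(σ)`, and so is `σ`.
-/

set_option autoImplicit false

open Pool.Agent.H32.SJ

namespace Pool.Agent.Results.MP_7ebcb6_ag.SplitJacobians

/-- **Bloch's conjecture and the isogeny factors of the Jacobian of the generic fibre.** -/
theorem result (X : FibredSurface) {ι : Type} (Y : ι → FibredSurface) (h : IsFactor X Y) :
    ((∀ i, NoForms (Y i).K) → NoForms X.K) ∧
    ((∀ i, Degenerate (Y i).K ∨ IsRuled (Y i).K) → Degenerate X.K) ∧
    ((∀ i, IsFactor (Y i) fun _ : Unit => X) →
      (NoForms X.K ↔ ∀ i, NoForms (Y i).K) ∧ (Degenerate X.K ↔ ∀ i, Degenerate (Y i).K)) := by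
  refine ⟨noForms_of_factor h, fun hY => degenerate_of_factor h fun i => ?_, fun h' => ?_⟩
  · rcases hY i with h1 | h1
    · exact h1
    · exact degenerate_of_ruled h1
  · exact ⟨⟨fun hX i => noForms_of_factor (h' i) fun _ => hX, noForms_of_factor h⟩,
      ⟨fun hX i => degenerate_of_factor (h' i) fun _ => hX, degenerate_of_factor h⟩⟩

end Pool.Agent.Results.MP_7ebcb6_ag.SplitJacobians
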