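import Pool.Agent.H70.TD.Formula

/-!
# The field of definition of a class of zero-cycles

No hypothesis is assumed. Let `X` be an irreducible projective variety of dimension `N` over the complex
numbers, for example a nonsingular surface with `p_g = 0`, which is defined over the countable field
`K`, for example a number field. Let `B(X)` be the group of zero-cycles modulo rational equivalence.
For a zero-cycle `ζ = ∑ [z i] - ∑ [z' i]` let `K(ζ)` be the field generated over `K` by the ratios of the
homogeneous coordinates of its points (`cycRatios z z'`), `t(ζ)` the transcendence degree of `K(ζ)`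
over `K`, `t(ζ | ξ)` that of `K(ζ, ξ)` over `K(ξ)`, and `|ζ|` the number of the points of `ζ`.

**Theorem.**

1. **The smallest field.** Let `c` be a class of zero-cycles, or a class modulo the points of
   transcendence degree at most `t` over `K` (`EquivMod`; `t = 0` means modulo points over the algebraic
   closure of `K`, `t = 1` modulo the curves over `K`). Among the algebraically closed fields which
   contain `K` and over which `c` is represented by a zero-cycle there is a smallest one, `L(c)`: there is
   a zero-cycle `ξ` in `c` whose coordinates are algebraic over `K(ξ')` for EVERY zero-cycle `ξ'` in `c`.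
2. **The exact formula.** For `c = γ(z)`, `z` in `Xⁿ`, the transcendence degree of `L(c)` is at most
   `N n - dim F`, where `F` is the fibre of `γ` through `z`; and if `z` is generic over `K`, it is
   equal to `d_n`.
3. So `B(X)` is finite-dimensional if and only if the transcendence degrees of the fields `L(c)` of all
   classes `c` are bounded.
4. **Surfaces.** `B(X)` is finite-dimensional, or for ALL zero-cycles `ζ` and `ξ`, neither effective nor
   generic, of any degrees, which are equivalent modulo the points of transcendence degree at most one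
   over `K` (that is, up to a zero-cycle on curves which are defined over `K`)

     `t(ζ | ξ) + t(ζ) ≤ 2 |ζ|`,  and therefore  `t(ξ) ≥ 2 (t(ζ) - |ζ|)`;

   in particular `t(ζ | L(c)) + t(ζ) ≤ 2 |ζ|` for all `ζ` in `c`. `B(X)` is finite-dimensional if and
   only if one such pair violates the inequality, and the bound is attained: if `D` is a curve on `X`
   over `K`, for `m` general points of `X` and `l` general points of `D` (and `ξ` the sum of the former)
   there is equality, with `|ζ| = m + l`, `t(ζ) = 2 m + l`.

If `B(X)` is infinite-dimensional, a zero-cycle `ζ` on the surface `X` with `t(ζ) > |ζ|` is therefore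
never equivalent to a zero-cycle over the algebraic closure of `K`, even modulo all curves over `K`. Bloch's
conjecture says that this is impossible if `p_g = 0`, and it is true for `X` as soon as ONE pair `ζ`,
`ξ` with `t(ζ | ξ) + t(ζ) > 2 |ζ|` is found.

Proof of 1 and 2. Let `ξ` be a zero-cycle of smallest transcendence degree in `c`, and let `ξ'` be
another one, such that `ξ` is not algebraic over `K(ξ')`. Let `ξ₁` be a conjugate of `ξ` over `K(ξ')`
which is independent of `ξ`. It is equivalent to `ξ' ~ ξ`, and it is not algebraic over `K(ξ)`. So it can be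
specialised over `K(ξ)`, such that one of its points comes to lie on a hyperplane over `K` which
contains no point of `ξ`. The specialisation `ξ₂` is again equivalent to `ξ`, and a specialisation of
`ξ` over `K` which is not a conjugate of `ξ`; so it has smaller transcendence degree over `K`, a
contradiction. (2): let `F` be the fibre through `z`, and `ξ` as in 1. For a point `y` of `F` which is
generic over `K(ξ)` we have `N n ≥ t(y) = t(y, ξ) = t(ξ) + t(y | ξ) = t(ξ) + dim F`. If `z` is
generic then a conjugate of `z` over `K(ξ)`, independent of `z`, is a point of `F` of transcendence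
degree `t(z | ξ) = N n - t(ξ)` over `K(z)`, and by the semicontinuity of the dimensions of the fibres
all fibres have at least this dimension.

Proof of 4. (a) Let `ζ = ξ` in `B(X)`. A generic conjugate `ζ₁` of `ζ` over `K(ξ)` has the same class, so
`z + z₁'` and `z₁ + z'` are equivalent effective zero-cycles, and together they have transcendence
degree at least `t(ζ) + t(ζ | ξ)`. If `B(X)` is infinite-dimensional, two equivalent effective
zero-cycles of degree `n` have together transcendence degree at most `2 n` over a suitable large
countable field (this is a theorem of the library, `LargeDifferenceFibres`). (b) If `ζ` and `ξ` are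
equivalent up to a zero-cycle `w` on curves over `K`, then `w` can be replaced by a zero-cycle of
transcendence degree at most `2 q`, where `q` depends only on the curves. This gives the inequality with
the error `2 q`, over a large countable field. (c) For every `s` take `s` independent generic
conjugates of `(ζ, ξ, w)` over `K`, independent of the large field, and add them up. The transcendence
degrees and `|ζ|` are multiplied by `s`, and the error is again `2 q`, because the sum of the conjugates
of `w` is supported on the same curves. For large `s` the error disappears, and the large field too.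
-/

set_option autoImplicit false

namespace Pool.Agent.Results.MP_7ebcb6_ag.TranscendenceDegrees

open Pool.Agent.Y148.OD Pool.Agent.H15.TD Pool.Agent.H70.TD

/-- **The field of definition of a class of zero-cycles.** -/
theorem result {r N : ℕ} {X : Set (Pt r)} (hX : IsVariety X N) {K : Subfield ℂ} (hK : Countable K)
    (hXK : DefinedOver K X) :
    (∀ (t n m : ℕ) (z : Fin n → X) (z' : Fin m → X),
      ∃ (a b : ℕ) (x : Fin a → X) (y : Fin b → X), Smallest K X t z z' x y) ∧
    (∀ (n a b : ℕ) (z : Fin n → X) (x : Fin a → X) (y : Fin b → X),
      Smallest K X 0 z (Fin.elim0 : Fin 0 → X) x y →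
        rk K (cycRatios x y) + ((dim (fibre X z) : ℕ) : ℕ∞) ≤ ((N * n : ℕ) : ℕ∞) ∧
        (IsGeneric N K z → rk K (cycRatios x y) = ((dn X N n : ℕ) : ℕ∞))) ∧
    ((∃ c : ℕ, ∀ n, dn X N n ≤ c) ↔
      ∃ q : ℕ, ∀ (n m : ℕ) (z : Fin n → X) (z' : Fin m → X), ∃ (a b : ℕ) (x : Fin a → X)
        (y : Fin b → X), EquivMod K X 0 z z' x y ∧ rk K (cycRatios x y) ≤ (q : ℕ∞)) ∧
    (N = 2 →
      ((∃ c : ℕ, ∀ n, dn X 2 n ≤ c) ∨
        ∀ (n m a b : ℕ) (z : Fin n → X) (z' : Fin m → X) (x : Fin a → X) (y : Fin b → X),
          EquivMod K X 1 z z' x y →
            rk (adj K (cycRatios x y)) (cycRatios z z') + rk K (cycRatios z z') ≤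
              ((2 * (n + m) : ℕ) : ℕ∞) ∧
            2 * rk K (cycRatios z z') ≤ rk K (cycRatios x y) + ((2 * (n + m) : ℕ) : ℕ∞)) ∧
      ((∃ c : ℕ, ∀ n, dn X 2 n ≤ c) ↔
        ∃ (n m a b : ℕ) (z : Fin n → X) (z' : Fin m → X) (x : Fin a → X) (y : Fin b → X),
          EquivMod K X 1 z z' x y ∧ ((2 * (n + m) : ℕ) : ℕ∞) <
            rk (adj K (cycRatios x y)) (cycRatios z z') + rk K (cycRatios z z')) ∧
      (∀ D : Set (Pt r), D ⊆ X → IsVariety D 1 → DefinedOver K D → ∀ m l : ℕ,
        ∃ (x : Fin m → X) (z : Fin (m + l) → X),
          EquivMod K X 1 z (Fin.elim0 : Fin 0 → X) x (Fin.elim0 : Fin 0 → X) ∧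
          ((2 * m + l : ℕ) : ℕ∞) ≤ rk K (ratios fun i => (z i : Pt r)) ∧
          ((l : ℕ) : ℕ∞) ≤ rk (adj K (ratios fun i => (x i : Pt r)))
            (ratios fun i => (z i : Pt r)))) := by
  refine ⟨fun t n m z z' => exists_smallest hX hK hXK t z z',
    fun n a b z x y h => ⟨upper_formula hX hK hXK h, fun hz => formula hX hK hXK hz h⟩,
    bounded_iff hX hK hXK, ?_⟩
  rintro rfl
  have hineq : (¬ ∃ c : ℕ, ∀ n, dn X 2 n ≤ c) → ∀ (n m a b : ℕ) (z : Fin n → X) (z' : Fin m → X)
      (x : Fin a → X) (y : Fin b → X), EquivMod K X 1 z z' x y →
        rk (adj K (cycRatios x y)) (cycRatios z z') + rk K (cycRatios z z') ≤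
          ((2 * (n + m) : ℕ) : ℕ∞) :=
    fun hinf n m a b z z' x y h => inequality hX hinf hK hXK h
  refine ⟨?_, ⟨?_, ?_⟩, fun D hDX hD hDK m l => attained hX hD hDX hK hDK m l⟩
  · by_cases hinf : ∃ c : ℕ, ∀ n, dn X 2 n ≤ c
    · exact Or.inl hinf
    · refine Or.inr fun n m a b z z' x y h => ?_
      have h1 := hineq hinf n m a b z z' x y h
      exact ⟨h1, lower_bound h1⟩
  · intro hfin
    obtain ⟨n, a, b, z, x, y, h1, h2⟩ := exists_violation hX hfin hK
    refine ⟨n, 0, a, b, z, Fin.elim0, x, y, ⟨0, 0, Fin.elim0, Fin.elim0, fun i => i.elim0,
      fun i => i.elim0, ?_⟩, ?_⟩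
    · rw [γ_elim0, h1]
      abel
    · rw [cycRatios_elim0, add_zero]
      exact h2
  · rintro ⟨n, m, a, b, z, z', x, y, h, hv⟩
    by_contra hinf
    exact absurd (hineq hinf n m a b z z' x y h) (not_le.mpr hv)

end Pool.Agent.Results.MP_7ebcb6_ag.TranscendenceDegrees
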